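import Pool.Agent.KS6_32.MD.Gen

set_option autoImplicit false

/-!
Families of cardinality continuum.
-/

namespace Pool.Agent.KS6_32.MD

open Pool.Agent.Helper583.TC Pool.Agent.Helper583.TC.J3
open Pool.Agent.Y375.TD (Low countable_cone)
open Cardinal

theorem card_union (C : (ℕ → ℕ) → Set (ℕ → ℕ)) (hC : ∀ a, (C a).Countable) (A : Set (ℕ → ℕ))
    (hA : #A < 𝔠) : #(⋃ a ∈ A, C a : Set (ℕ → ℕ)) < 𝔠 := by
  refine lt_of_le_of_lt (Cardinal.mk_biUnion_le C A) ?_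
  refine Cardinal.mul_lt_of_lt Cardinal.aleph0_le_continuum hA ?_
  refine lt_of_le_of_lt (ciSup_le' fun a => ?_) Cardinal.aleph0_lt_continuum
  exact (hC a.1).le_aleph0

theorem card_fun : #(ℕ → ℕ) = 𝔠 := by
  simp

theorem card_le (B : Set (ℕ → ℕ)) : #B ≤ 𝔠 := by
  rw [← card_fun]
  exact Cardinal.mk_set_le B

theorem card_diff {M U : Set (ℕ → ℕ)} (hM : #M = 𝔠) (hU : #U < 𝔠) : #(M \ U : Set (ℕ → ℕ)) = 𝔠 := by
  refine le_antisymm (card_le _) ?_
  by_contra hlt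
  rw [not_le] at hlt
  have h1 : M ⊆ (M \ U) ∪ U := by
    intro x hx
    by_cases h : x ∈ U
    · exact Or.inr h
    · exact Or.inl ⟨hx, h⟩
  have h2 : #M ≤ #(M \ U : Set (ℕ → ℕ)) + #U :=
    (Cardinal.mk_le_mk_of_subset h1).trans (Cardinal.mk_union_le _ _)
  rw [hM] at h2
  exact absurd h2 (not_le.2 (Cardinal.add_lt_of_lt Cardinal.aleph0_le_continuum hlt hU))

theorem countable_low : {z : ℕ → ℕ | Low z}.Countable := by
  obtain ⟨e, he1, he2⟩ := Pool.Agent.Y375.TD.exists_enum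
  refine Set.Countable.mono (s₂ := ⋃ i : ℕ, {x | Red x (nb (e i))}) ?_
    (Set.countable_iUnion fun i => countable_cone _)
  rintro z ⟨y, hy, hz⟩
  obtain ⟨i, rfl⟩ := he2 y hy
  exact Set.mem_iUnion.2 ⟨i, hz⟩

/-- join -/
def jo (a b : ℕ → ℕ) : ℕ → ℕ := fun n => if n % 2 = 0 then a (n / 2) else b (n / 2)

theorem red_jo_left (a b : ℕ → ℕ) : Red a (jo a b) := by
  have h := red_comp (jo a b) (f := fun n => 2 * n)
    (Primrec.nat_mul.comp (Primrec.const 2) Primrec.id)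
  have h2 : (fun n => jo a b (2 * n)) = a := by
    funext n
    unfold jo
    rw [if_pos (by omega)]
    congr 1
    omega
  rwa [h2] at h

theorem red_jo_right (a b : ℕ → ℕ) : Red b (jo a b) := by
  have h := red_comp (jo a b) (f := fun n => 2 * n + 1)
    (Primrec.succ.comp (Primrec.nat_mul.comp (Primrec.const 2) Primrec.id))
  have h2 : (fun n => jo a b (2 * n + 1)) = b := by
    funext n
    unfold jo
    rw [if_neg (by omega)]
    congr 1
    omega
  rwa [h2] at h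

theorem countable_bad (a : ℕ → ℕ) : {b : ℕ → ℕ | ∃ w, Low w ∧ Red b (jo a w)}.Countable := by
  refine Set.Countable.mono (s₂ := ⋃ w ∈ {w | Low w}, {x | Red x (jo a w)}) ?_
    (countable_low.biUnion fun w _ => countable_cone _)
  rintro b ⟨w, hw, hb⟩
  exact Set.mem_biUnion hw hb

theorem low_nb {z : ℕ → Bool} (hz : Sg z) : Low (nb z) :=
  ⟨z, hz, Nat.RecursiveIn.oracle _ rfl⟩

theorem Mn.meet {a b : ℕ → ℕ} (hb : Mn b) (h : ¬ ∃ w, Low w ∧ Red b (jo a w)) {z : ℕ → ℕ}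
    (h1 : Red z a) (h2 : Red z b) : Low z := by
  rcases hb.2 z h2 with h3 | ⟨w, hw, h3⟩
  · exact h3
  · exact absurd ⟨nb w, low_nb hw, h3 _ (red_trans h1 (red_jo_left _ _)) (red_jo_right _ _)⟩ h

theorem cat_low {c w : ℕ → ℕ} (hc : Cat c) (hw : Low w) : Red w c := by
  obtain ⟨y, hy, h⟩ := hw
  exact red_trans h (cat_iff.1 hc y hy)

theorem Mn.min {b c : ℕ → ℕ} (hb : Mn b) (hc : Cat c) (h : Red c b) : Red b c := by
  rcases hb.2 c h with h1 | ⟨w, hw, h3⟩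
  · exact absurd h1 (Pool.Agent.Y375.TD.not_low hc)
  · exact h3 c (Nat.RecursiveIn.oracle _ rfl) (cat_low hc (low_nb hw))

/-- **Main construction.** -/
theorem main (A : Set (ℕ → ℕ)) (hA : #A < 𝔠) : ∃ B : Set (ℕ → ℕ), #B = 𝔠 ∧ (∀ b ∈ B, Mn b) ∧
    (∀ a ∈ A, ∀ b ∈ B, ∀ z, Red z a → Red z b → Low z) ∧
    ∀ b ∈ B, ∀ b' ∈ B, b ≠ b' → ∀ z, Red z b → Red z b' → Low z := by
  classical
  obtain ⟨β, hβ1, hβ2⟩ := exists_inj
  have hM : #(Set.range β) = 𝔠 := by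
    rw [Cardinal.mk_range_eq β hβ1]
    simp
  have hU := card_union (fun a => {b : ℕ → ℕ | ∃ w, Low w ∧ Red b (jo a w)}) countable_bad A hA
  obtain ⟨U, hUdef⟩ : ∃ U : Set (ℕ → ℕ), U = ⋃ a ∈ A, {b : ℕ → ℕ | ∃ w, Low w ∧ Red b (jo a w)} :=
    ⟨_, rfl⟩
  rw [← hUdef] at hU
  have hN := card_diff hM hU
  -- Turing equivalence
  let s : Setoid (ℕ → ℕ) :=
    { r := fun x y => Red x y ∧ Red y x
      iseqv := ⟨fun x => ⟨Nat.RecursiveIn.oracle _ rfl, Nat.RecursiveIn.oracle _ rfl⟩,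
        fun h => ⟨h.2, h.1⟩, fun h1 h2 => ⟨red_trans h1.1 h2.1, red_trans h2.2 h1.2⟩⟩ }
  -- representatives inside the set
  obtain ⟨N, hNdef⟩ : ∃ N : Set (ℕ → ℕ), N = Set.range β \ U := ⟨_, rfl⟩
  rw [← hNdef] at hN
  have hrep : ∀ q : Quotient s, (∃ x ∈ N, Quotient.mk s x = q) →
      ∃ x ∈ N, Quotient.mk s x = q := fun q h => h
  let rep : Quotient s → (ℕ → ℕ) := fun q =>
    if h : ∃ x ∈ N, Quotient.mk s x = q then h.choose else 0
  have hrep1 : ∀ x ∈ N, rep (Quotient.mk s x) ∈ N ∧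
      Quotient.mk s (rep (Quotient.mk s x)) = Quotient.mk s x := by
    intro x hx
    have h : ∃ x' ∈ N, Quotient.mk s x' = Quotient.mk s x := ⟨x, hx, rfl⟩
    have h1 : rep (Quotient.mk s x) = h.choose := dif_pos h
    rw [h1]
    exact h.choose_spec
  obtain ⟨B, hB⟩ : ∃ B : Set (ℕ → ℕ), B = (fun x => rep (Quotient.mk s x)) '' N := ⟨_, rfl⟩
  have hBN : ∀ b ∈ B, b ∈ N := by
    rw [hB]
    rintro b ⟨x, hx, rfl⟩
    exact (hrep1 x hx).1
  have hBM : ∀ b ∈ B, Mn b := by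
    intro b hb
    have := hBN b hb
    rw [hNdef] at this
    obtain ⟨⟨f, rfl⟩, -⟩ := this
    exact hβ2 f
  refine ⟨B, ?_, hBM, ?_, ?_⟩
  · refine le_antisymm (card_le _) ?_
    by_contra hlt
    rw [not_le] at hlt
    have h1 := card_union (fun b => {x | Red x b}) (fun b => countable_cone b) B hlt
    have h2 : N ⊆ ⋃ b ∈ B, {x | Red x b} := by
      intro x hx
      refine Set.mem_biUnion (x := rep (Quotient.mk s x)) ?_ ?_
      · rw [hB]
        exact ⟨x, hx, rfl⟩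
      · exact (Quotient.exact (hrep1 x hx).2).2
    exact absurd (Cardinal.mk_le_mk_of_subset h2) (not_le.2 (by rw [hN]; exact h1))
  · intro a ha b hb z h1 h2
    refine (hBM b hb).meet ?_ h1 h2
    intro h
    have := hBN b hb
    rw [hNdef] at this
    apply this.2
    rw [hUdef]
    exact Set.mem_biUnion ha h
  · intro b hb b' hb' hne z h1 h2
    by_contra hz
    have key : ∀ b b', Mn b → Mn b' → Red z b → Red z b' → Red b b' := by
      intro b b' hb hb' h1 h2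
      rcases hb.2 z h1 with h3 | ⟨w, hw, h3⟩
      · exact absurd h3 hz
      · exact h3 b' h2 (cat_low hb'.1 (low_nb hw))
    have e1 := key b b' (hBM b hb) (hBM b' hb') h1 h2
    have e2 := key b' b (hBM b' hb') (hBM b hb) h2 h1
    apply hne
    rw [hB] at hb hb'
    obtain ⟨x, hx, rfl⟩ := hb
    obtain ⟨x', hx', rfl⟩ := hb'
    simp only at e1 e2 ⊢
    congr 1
    have h3 : Quotient.mk s (rep (Quotient.mk s x)) = Quotient.mk s (rep (Quotient.mk s x')) :=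
      Quotient.sound ⟨e1, e2⟩
    rw [(hrep1 x hx).2, (hrep1 x' hx').2] at h3
    exact h3

end Pool.Agent.KS6_32.MD
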