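import Pool.Agent.KS6_32.MD.Split

set_option autoImplicit false

/-!
Continuum many oracles that are minimal over the singleton classes.
-/

namespace Pool.Agent.KS6_32.MD

open Pool.Agent.Helper583.TC Pool.Agent.Helper583.TC.J3
open Pool.Agent.Y375.TD (Low)
open Encodable (encode decode)
open Nat.Partrec (Code)

/-- what one step achieves -/
def Ach (z : ℕ → Bool) (c : Code) (T : Tr) : Prop := ∀ y, Path T y → Red (nb z) y ∧
  (Fn c → ∀ a, Cmp c y a → Low a ∨ ∃ z, Sg z ∧ ∀ e, Red a e → Red (nb z) e → Red y e)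

theorem Ext.trans {T T' T'' : Tr} (h : Ext T T') (h' : Ext T' T'') : Ext T T'' := by
  obtain ⟨g, h1, h2⟩ := h
  obtain ⟨g', h1', h2'⟩ := h'
  refine ⟨fun s => g (g' s), fun s => ?_, fun s => ?_⟩
  · show s.length + 1 ≤ (g (g' s)).length
    have := h1 (g' s)
    have := h1' s
    omega
  · rw [h2', h2]

theorem step (z : ℕ → Bool) (hz : Sg z) (c : Code) (T : Tr) (hT : Cnd T) :
    ∃ T', Cnd T' ∧ Ext T T' ∧ Ach z c T' := by
  obtain ⟨T1, h1, h2, h3⟩ := cnd_code hT hz
  obtain ⟨T2, h4, h5, h6⟩ := cnd_decide h1 c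
  exact ⟨T2, h4, h2.trans h5, fun y hy => ⟨h3 y (hy.ext h5), fun hc a ha => h6 hc y hy a ha⟩⟩

/-- paths through a decreasing sequence of trees -/
theorem limit (T : ℕ → Tr) (hT : ∀ i, IsT (T i)) (he : ∀ i, Ext (T i) (T (i + 1))) :
    ∃ b, ∀ i, Path (T i) b := by
  have hdeep : ∀ i j s, ∃ t : List Bool, s.length + j ≤ t.length ∧ T (i + j) s = T i t := by
    intro i j
    induction j with
    | zero => exact fun s => ⟨s, le_rfl, rfl⟩
    | succ j ih =>
      intro s
      obtain ⟨g, h1, h2⟩ := he (i + j)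
      obtain ⟨t, h3, h4⟩ := ih (g s)
      refine ⟨t, ?_, ?_⟩
      · have := h1 s
        omega
      · rw [← h4, ← h2]
        rfl
  have hS : ∀ i, T i [] <+: T (i + 1) [] := by
    intro i
    obtain ⟨g, h1, h2⟩ := he i
    rw [h2]
    exact (hT i).mono' [] _
  have hmono : ∀ i j, i ≤ j → T i [] <+: T j [] := by
    intro i j hij
    induction j, hij using Nat.le_induction with
    | base => exact List.prefix_rfl
    | succ j _ ih => exact ih.trans (hS j)
  have hlen : ∀ i, i ≤ (T i []).length := by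
    intro i
    obtain ⟨t, h1, h2⟩ := hdeep 0 i []
    rw [Nat.zero_add] at h2
    rw [h2]
    have := (hT 0).len t
    simp only [List.length_nil] at h1
    omega
  have hpg : ∀ (l l' : List ℕ) (p : ℕ), l <+: l' → p < l.length → l'.getD p 0 = l.getD p 0 := by
    intro l l' p hl hp
    obtain ⟨l'', rfl⟩ := hl
    rw [List.getD_append _ _ _ _ hp]
  obtain ⟨b, hb⟩ : ∃ b : ℕ → ℕ, b = fun n => (T (n + 1) []).getD n 0 := ⟨_, rfl⟩
  have hP : ∀ i, Pfx (T i []) b := by
    intro i
    unfold Pfx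
    apply List.ext_getElem
    · rw [len_pre]
    · intro n h1 h2
      have h3 : (T i [])[n] = (T i []).getD n 0 := (List.getD_eq_getElem _ _ h2).symm
      have h4 : (pre b (T i []).length)[n] = b n := by
        simp [pre]
      rw [h3, h4, hb]
      show (T (n + 1) []).getD n 0 = _
      rcases le_total i (n + 1) with h | h
      · exact hpg _ _ n (hmono _ _ h) h2
      · exact (hpg _ _ n (hmono _ _ h) (by have := hlen (n + 1); omega)).symm
  refine ⟨b, fun i n => ?_⟩
  obtain ⟨t, h1, h2⟩ := hdeep i n []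
  refine ⟨t, ?_, ?_⟩
  · simp only [List.length_nil] at h1
    omega
  · rw [← h2]
    exact hP _

/-- the full tree -/
theorem cnd_full : Cnd (fun s : List Bool => s.map Bool.toNat) := by
  have hp : Primrec (fun s : List Bool => s.map Bool.toNat) :=
    Primrec.list_map Primrec.id ((Primrec.dom_bool Bool.toNat).comp Primrec.snd)
  obtain ⟨z, hz⟩ := sg_nonempty
  refine ⟨⟨fun s b => ?_, fun s w h1 h2 => ?_⟩, ⟨z, hz, RI.prim hp⟩, fun y _ => RI.prim hp⟩
  · simp
  · simp only [List.map_append, List.map_cons, List.map_nil] at h1 h2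
    have h3 := List.prefix_of_prefix_length_le h1 h2 (by simp)
    have h4 := h3.eq_of_length (by simp)
    simp at h4

/-- Oracles minimal over the singleton classes -/
def Mn (b : ℕ → ℕ) : Prop :=
  Cat b ∧ ∀ a, Red a b → Low a ∨ ∃ z, Sg z ∧ ∀ e, Red a e → Red (nb z) e → Red b e

theorem shift_disj {T : Tr} (hT : IsT T) {b b' : Bool} (h : b ≠ b') {y : ℕ → ℕ}
    (h1 : Path (shift T [b]) y) (h2 : Path (shift T [b']) y) : False := by
  obtain ⟨s, -, hs⟩ := h1 0
  obtain ⟨t, -, ht⟩ := h2 0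
  have h3 : Pfx (T ([] ++ [b])) y := hs.down (hT.mono' [b] s)
  have h4 : Pfx (T ([] ++ [b'])) y := ht.down (hT.mono' [b'] t)
  obtain ⟨w, hw1, hw2⟩ := h3.common h4
  exact hT.inc' h hw1 hw2

theorem exists_inj : ∃ β : (ℕ → Bool) → (ℕ → ℕ), Function.Injective β ∧ ∀ f, Mn (β f) := by
  classical
  obtain ⟨e, he1, he2⟩ := Pool.Agent.Y375.TD.exists_enum
  -- one step, from a condition and a bit
  have hst : ∀ (i : ℕ) (T : {T : Tr // Cnd T}) (b : Bool), ∃ T' : {T : Tr // Cnd T},
      Ext T.1 T'.1 ∧ Ext (shift T.1 [b]) T'.1 ∧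
        Ach (e i) (Denumerable.ofNat Code i) T'.1 := by
    rintro i ⟨T, hT⟩ b
    obtain ⟨T', h1, h2, h3⟩ := step (e i) (he1 i) (Denumerable.ofNat Code i) (shift T [b])
      (hT.shift (by simp))
    exact ⟨⟨T', h1⟩, (ext_shift T (by simp)).trans h2, h2, h3⟩
  choose N hN1 hN2 hN3 using hst
  obtain ⟨S, hS0, hS1⟩ : ∃ S : (ℕ → Bool) → ℕ → {T : Tr // Cnd T},
      (∀ f, S f 0 = ⟨_, cnd_full⟩) ∧ ∀ f i, S f (i + 1) = N i (S f i) (f i) :=
    ⟨fun f i => Nat.rec ⟨_, cnd_full⟩ (fun i T => N i T (f i)) i, fun f => rfl, fun f i => rfl⟩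
  have hlim : ∀ f, ∃ b, ∀ i, Path (S f i).1 b := fun f =>
    limit (fun i => (S f i).1) (fun i => (S f i).2.isT) (fun i => by
      show Ext (S f i).1 (S f (i + 1)).1
      rw [hS1]
      exact hN1 _ _ _)
  choose β hβ using hlim
  refine ⟨β, ?_, ?_⟩
  · intro f f' hff
    by_contra hne
    have hex : ∃ i, f i ≠ f' i := by
      by_contra h
      push Not at h
      exact hne (funext h)
    have h1 := Nat.find_spec hex
    have h2 : ∀ j < Nat.find hex, f j = f' j := fun j hj => by
      have := Nat.find_min hex hj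
      push Not at this
      exact this
    obtain ⟨i, hi⟩ : ∃ i, i = Nat.find hex := ⟨_, rfl⟩
    rw [← hi] at h1 h2
    have h3 : ∀ j ≤ i, S f j = S f' j := by
      intro j
      induction j with
      | zero => intro _; rw [hS0, hS0]
      | succ j ih =>
        intro hj
        rw [hS1, hS1, ih (by omega), h2 j (by omega)]
    have h4 : Path (shift (S f i).1 [f i]) (β f) := by
      have := hβ f (i + 1)
      rw [hS1] at this
      exact this.ext (hN2 _ _ _)
    have h5 : Path (shift (S f i).1 [f' i]) (β f) := by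
      have := hβ f' (i + 1)
      rw [hS1, ← h3 i le_rfl, ← hff] at this
      exact this.ext (hN2 _ _ _)
    exact shift_disj (S f i).2.isT h1 h4 h5
  · intro f
    have hA : ∀ i, Ach (e i) (Denumerable.ofNat Code i) (S f (i + 1)).1 := by
      intro i
      rw [hS1]
      exact hN3 _ _ _
    refine ⟨upper fun y hy => ?_, fun a ha => ?_⟩
    · obtain ⟨i, rfl⟩ := he2 y hy
      exact (hA i _ (hβ f (i + 1))).1
    · obtain ⟨c, hc1, hc2⟩ := exists_cmp ha
      obtain ⟨i, hi⟩ : ∃ i, Denumerable.ofNat Code i = c :=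
        ⟨encode c, Denumerable.ofNat_encode c⟩
      have h1 := (hA i _ (hβ f (i + 1))).2
      rw [hi] at h1
      exact h1 hc1 a hc2

end Pool.Agent.KS6_32.MD
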