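import Pool.Graph.R_seed8.Y375.TD.Pair

set_option autoImplicit false

/-!
Total functions between coded types that are recursive in a set of oracles.
-/

namespace Pool.Agent.KS6_32.MD

open Pool.Agent.Helper583.TC Pool.Agent.Helper583.TC.J3
open Encodable (encode decode)

/-- a total function between coded types is recursive in `O` -/
def RI {α σ : Type} [Primcodable α] [Primcodable σ] (O : Set (ℕ →. ℕ)) (f : α → σ) : Prop :=
  ∃ F : ℕ → ℕ, Nat.RecursiveIn O (orc F) ∧ ∀ a, F (encode a) = encode (f a)

section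
variable {α β γ σ : Type} [Primcodable α] [Primcodable β] [Primcodable γ] [Primcodable σ]
variable {O : Set (ℕ →. ℕ)}

theorem RI.comp {g : β → γ} {f : α → β} (hg : RI O g) (hf : RI O f) :
    RI O (fun a => g (f a)) := by
  obtain ⟨F, hF, h1⟩ := hf
  obtain ⟨G, hG, h2⟩ := hg
  exact ⟨fun n => G (F n), ri_comp hG hF, fun a => by
    show G (F (encode a)) = encode (g (f a))
    rw [h1, h2]⟩

theorem RI.pair {f : α → β} {g : α → γ} (hf : RI O f) (hg : RI O g) :
    RI O (fun a => (f a, g a)) := by
  obtain ⟨F, hF, h1⟩ := hf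
  obtain ⟨G, hG, h2⟩ := hg
  exact ⟨fun n => Nat.pair (F n) (G n), ri_pair hF hG, fun a => by
    show Nat.pair (F (encode a)) (G (encode a)) = encode (f a, g a)
    rw [h1, h2, Encodable.encode_prod_val]⟩

theorem RI.prim {f : α → β} (hf : Primrec f) : RI O f := by
  have h1 : Nat.Primrec (fun n => encode ((decode (α := α) n).map f)) := hf
  refine ⟨fun n => (encode ((decode (α := α) n).map f)) - 1, ri_prim ?_, fun a => ?_⟩
  · exact Primrec.nat_sub.comp (Primrec.nat_iff.2 h1) (Primrec.const 1)
  · simp

theorem RI.of_nat {f : ℕ → ℕ} (hf : Nat.RecursiveIn O (orc f)) : RI O f :=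
  ⟨f, hf, fun _ => rfl⟩

theorem RI.nat {f : ℕ → ℕ} (hf : RI O f) : Nat.RecursiveIn O (orc f) := by
  obtain ⟨F, hF, h⟩ := hf
  have : F = f := by
    funext n
    exact h n
  rw [← this]
  exact hF

theorem RI.eqv {f g : α → β} (hf : RI O f) (h : ∀ a, f a = g a) : RI O g := by
  have : f = g := funext h
  rwa [← this]

theorem RI.subst {O' : Set (ℕ →. ℕ)} {f : α → β} (hf : RI O f)
    (h : ∀ g, g ∈ O → Nat.RecursiveIn O' g) : RI O' f := by
  obtain ⟨F, hF, h1⟩ := hf
  exact ⟨F, hF.subst h, h1⟩

theorem RI.trans {x y : ℕ → ℕ} {f : α → β} (hf : RI {orc x} f) (h : Red x y) :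
    RI {orc y} f :=
  hf.subst fun g hg => by rw [Set.mem_singleton_iff.1 hg]; exact h

theorem RI.pre {y : ℕ → ℕ} (hy : Nat.RecursiveIn O (orc y)) :
    RI O (fun n : ℕ => Pool.Agent.Helper583.TC.pre y n) :=
  ⟨_, ri_pre hy, fun _ => rfl⟩

/-- unbounded search -/
theorem RI.find {R : α → ℕ → Bool} (hR : RI O (fun p : α × ℕ => R p.1 p.2))
    (h : ∀ a, ∃ n, R a n = true) : RI O (fun a => Nat.find (h a)) := by
  classical
  obtain ⟨F, hF, h1⟩ := hR
  have h2 : ∀ a n, F (Nat.pair (encode a) n) = encode (R a n) := by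
    intro a n
    have := h1 (a, n)
    rw [Encodable.encode_prod_val] at this
    exact this
  have hT : encode true = 1 := rfl
  have hFa : encode false = 0 := rfl
  obtain ⟨Dn, hDn⟩ : ∃ Dn : ℕ → ℕ, Dn = fun n => encode (decode (α := α) n) := ⟨_, rfl⟩
  have hDp : Primrec Dn := by
    rw [hDn]
    exact Primrec.encode.comp Primrec.decode
  -- the searched predicate
  obtain ⟨P, hPdef⟩ : ∃ P : ℕ → ℕ, P = fun p => if Dn (Nat.unpair p).1 = 0 then 0 else
      if F (Nat.pair (Dn (Nat.unpair p).1 - 1) (Nat.unpair p).2) = 1 then 0 else 1 := ⟨_, rfl⟩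
  have hP : Nat.RecursiveIn O (orc P) := by
    have h3 : Primrec (fun q : ℕ => if Dn (Nat.unpair (Nat.unpair q).1).1 = 0
        then 0 else if (Nat.unpair q).2 = 1 then 0 else 1) := by
      apply Primrec.ite
      · exact Primrec.eq.comp (hDp.comp (Primrec.fst.comp (Primrec.unpair.comp
          (Primrec.fst.comp Primrec.unpair)))) (Primrec.const 0)
      · exact Primrec.const 0
      · apply Primrec.ite
        · exact Primrec.eq.comp (Primrec.snd.comp Primrec.unpair) (Primrec.const 1)
        · exact Primrec.const 0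
        · exact Primrec.const 1
    have h5 : Primrec (fun p : ℕ => Nat.pair (Dn (Nat.unpair p).1 - 1) (Nat.unpair p).2) :=
      Primrec₂.natPair.comp (Primrec.nat_sub.comp (hDp.comp (Primrec.fst.comp Primrec.unpair))
        (Primrec.const 1)) (Primrec.snd.comp Primrec.unpair)
    have h4 := ri_comp (ri_prim (O := O) h3) (ri_pair
      (ri_prim (O := O) (f := fun n => n) Primrec.id) (ri_comp hF (ri_prim (O := O) h5)))
    rw [hPdef]
    simpa using h4
  have hR' := Nat.RecursiveIn.rfind hP
  have key : ∀ n s, (P (Nat.pair n s) = 0 ∧ ∀ m < s, P (Nat.pair n m) ≠ 0) →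
      s ∈ Nat.rfind (fun m => (fun m => decide (m = 0)) <$> orc P (Nat.pair n m)) := by
    rintro n s ⟨hs1, hs2⟩
    refine Nat.mem_rfind.2 ⟨?_, ?_⟩
    · simp [orc, hs1]
    · intro m hm
      simp [orc, hs2 m hm]
  refine ⟨fun n => match decode (α := α) n with
    | none => 0
    | some a => Nat.find (h a), ?_, ?_⟩
  · refine hR'.of_eq_tot ?_
    intro n
    apply key
    rw [hPdef]
    simp only [Nat.unpair_pair]
    rcases hd : decode (α := α) n with _ | a
    · have hD0 : Dn n = 0 := by
        rw [hDn]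
        show encode (decode (α := α) n) = 0
        rw [hd]
        rfl
      rw [if_pos hD0]
      exact ⟨rfl, fun m hm => absurd hm (Nat.not_lt_zero _)⟩
    · have hD1 : Dn n = encode a + 1 := by
        rw [hDn]
        show encode (decode (α := α) n) = _
        rw [hd]
        rfl
      rw [hD1]
      simp only [Nat.add_sub_cancel, Nat.succ_ne_zero, if_false]
      constructor
      · rw [h2, Nat.find_spec (h a), hT]
        simp
      · intro m hm
        rw [h2]
        have := Nat.find_min (h a) hm
        rw [Bool.not_eq_true] at this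
        rw [this, hFa]
        simp
  · intro a
    show (match decode (α := α) (encode a) with
      | none => 0
      | some a => Nat.find (h a)) = _
    rw [Encodable.encodek]
    rfl

theorem RI.sel {R : α → ℕ → Bool} (hR : RI O (fun p : α × ℕ => R p.1 p.2))
    (h : ∀ a, ∃ n, R a n = true) : ∃ f : α → ℕ, RI O f ∧ ∀ a, R a (f a) = true :=
  ⟨_, hR.find h, fun a => Nat.find_spec (h a)⟩

/-- iteration -/
theorem RI.iter {F : α → α} (hF : RI O F) : RI O (fun p : α × ℕ => F^[p.2] p.1) := by
  obtain ⟨G, hG, h1⟩ := hF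
  have h2 : Nat.RecursiveIn O (orc (fun q => G (Nat.unpair (Nat.unpair q).2).2)) :=
    ri_comp hG (ri_prim (O := O) (f := fun q => (Nat.unpair (Nat.unpair q).2).2)
      (Primrec.snd.comp (Primrec.unpair.comp (Primrec.snd.comp Primrec.unpair))))
  have h3 := Nat.RecursiveIn.prec (ri_prim (O := O) (f := fun n => n) Primrec.id) h2
  refine ⟨fun n => G^[(Nat.unpair n).2] (Nat.unpair n).1, ?_, ?_⟩
  · refine h3.of_eq ?_
    intro n
    have hh : ∀ x y, (Nat.rec (motive := fun _ => Part ℕ) (orc (fun n => n) x)
        (fun y IH => IH.bind fun i => orc (fun q => G (Nat.unpair (Nat.unpair q).2).2)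
          (Nat.pair x (Nat.pair y i))) y : Part ℕ) = Part.some (G^[y] x) := by
      intro x y
      induction y with
      | zero => rfl
      | succ y ih =>
        simp only [ih, Part.bind_some, Function.iterate_succ_apply']
        simp [orc]
    exact hh _ _
  · rintro ⟨a, k⟩
    simp only [Encodable.encode_prod_val, Nat.unpair_pair]
    show G^[encode k] (encode a) = encode (F^[k] a)
    have : ∀ k : ℕ, G^[k] (encode a) = encode (F^[k] a) := by
      intro k
      induction k with
      | zero => rfl
      | succ k ih => rw [Function.iterate_succ_apply', Function.iterate_succ_apply', ih, h1]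
    exact this k

end

end Pool.Agent.KS6_32.MD
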