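import Pool.Agent.KS6_32.MD.Tree

set_option autoImplicit false

/-!
Deciding one functional: on a subtree either its values are computable from the tree, or they
compute the path.
-/

namespace Pool.Agent.KS6_32.MD

open Pool.Agent.Helper583.TC Pool.Agent.Helper583.TC.J3
open Pool.Agent.Y375.TD (Low)
open Encodable (encode decode)
open Nat.Partrec (Code)

/-- the functional with code `c` is monotone -/
def Fn (c : Code) : Prop := ∀ (l l' : List ℕ) (n m : ℕ), l <+: l' →
  m ∈ c.eval (encode (l, n)) → m ∈ c.eval (encode (l', n))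

/-- the functional with code `c` sends `y` to `a` -/
def Cmp (c : Code) (y a : ℕ → ℕ) : Prop :=
  ∀ n m, m = a n ↔ ∃ k, m ∈ c.eval (encode (pre y k, n))

theorem exists_cmp {a y : ℕ → ℕ} (h : Red a y) : ∃ c, Fn c ∧ Cmp c y a := by
  obtain ⟨φ, hφ1, hφ2, hφ3⟩ := J2.use_principle h
  obtain ⟨c, hc⟩ := Code.exists_code.1 hφ1
  have hcφ : ∀ l n m, m ∈ c.eval (encode ((l, n) : List ℕ × ℕ)) ↔ m ∈ φ (l, n) := by
    intro l n m
    rw [hc]
    simp
  refine ⟨c, ?_, ?_⟩
  · intro l l' n m hl hm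
    rw [hcφ] at hm ⊢
    exact hφ2 l l' n m hl hm
  · intro n m
    have h1 : m = a n ↔ m ∈ orc a n := by simp [orc]
    rw [h1, hφ3]
    exact exists_congr fun k => (hcφ _ _ _).symm

theorem Cmp.val {c : Code} {y a : ℕ → ℕ} (h : Cmp c y a) {l : List ℕ} (hl : Pfx l y) {n m : ℕ}
    (hm : m ∈ c.eval (encode (l, n))) : m = a n := by
  rw [h]
  exact ⟨l.length, by rw [show pre y l.length = l from hl]; exact hm⟩

theorem Cmp.ex {c : Code} (hc : Fn c) {T : Tr} (hT : IsT T) {y a : ℕ → ℕ} (h : Cmp c y a)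
    (hy : Path T y) (n : ℕ) : ∃ s, Pfx (T s) y ∧ a n ∈ c.eval (encode (T s, n)) := by
  obtain ⟨k, hk⟩ := (h n (a n)).1 rfl
  obtain ⟨s, hs1, hs2⟩ := hy k
  refine ⟨s, hs2, hc _ _ _ _ ?_ hk⟩
  have h1 := hT.len s
  have h2 := pre_prefix y (show k ≤ (T s).length by omega)
  rwa [show pre y (T s).length = T s from hs2] at h2

/-- two words, an argument, two values, a number of steps -/
abbrev W := (List Bool × List Bool) × (ℕ × ((ℕ × ℕ) × ℕ))

def chk (c : Code) (p : W × (List ℕ × List ℕ)) : Bool :=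
  (decide (p.1.1.1.length ≠ 0) && decide (p.1.1.2.length ≠ 0)) &&
  ((decide (c.evaln p.1.2.2.2 (encode (p.2.1, p.1.2.1)) = some p.1.2.2.1.1) &&
    decide (c.evaln p.1.2.2.2 (encode (p.2.2, p.1.2.1)) = some p.1.2.2.1.2)) &&
    decide (p.1.2.2.1.1 ≠ p.1.2.2.1.2))

theorem prim_chk (c : Code) : Primrec (chk c) := by
  have a1 : Primrec (fun p : W × (List ℕ × List ℕ) => p.1.2.2.2) :=
    Primrec.snd.comp (Primrec.snd.comp (Primrec.snd.comp Primrec.fst))
  have a2 : Primrec (fun p : W × (List ℕ × List ℕ) => p.1.2.2.1.1) :=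
    Primrec.fst.comp (Primrec.fst.comp (Primrec.snd.comp (Primrec.snd.comp Primrec.fst)))
  have a3 : Primrec (fun p : W × (List ℕ × List ℕ) => p.1.2.2.1.2) :=
    Primrec.snd.comp (Primrec.fst.comp (Primrec.snd.comp (Primrec.snd.comp Primrec.fst)))
  have a4 : Primrec (fun p : W × (List ℕ × List ℕ) => p.1.2.1) :=
    Primrec.fst.comp (Primrec.snd.comp Primrec.fst)
  have e1 : Primrec (fun p : W × (List ℕ × List ℕ) =>
      c.evaln p.1.2.2.2 (encode (p.2.1, p.1.2.1))) :=
    Code.primrec_evaln.comp (Primrec.pair (Primrec.pair a1 (Primrec.const c))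
      (Primrec.encode.comp (Primrec.pair (Primrec.fst.comp Primrec.snd) a4)))
  have e2 : Primrec (fun p : W × (List ℕ × List ℕ) =>
      c.evaln p.1.2.2.2 (encode (p.2.2, p.1.2.1))) :=
    Code.primrec_evaln.comp (Primrec.pair (Primrec.pair a1 (Primrec.const c))
      (Primrec.encode.comp (Primrec.pair (Primrec.snd.comp Primrec.snd) a4)))
  have n1 : Primrec (fun p : W × (List ℕ × List ℕ) => decide (p.1.1.1.length ≠ 0)) :=
    (PrimrecPred.not (Primrec.eq.comp (Primrec.list_length.comp (Primrec.fst.comp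
      (Primrec.fst.comp Primrec.fst))) (Primrec.const 0))).decide
  have n2 : Primrec (fun p : W × (List ℕ × List ℕ) => decide (p.1.1.2.length ≠ 0)) :=
    (PrimrecPred.not (Primrec.eq.comp (Primrec.list_length.comp (Primrec.snd.comp
      (Primrec.fst.comp Primrec.fst))) (Primrec.const 0))).decide
  have n3 : Primrec (fun p : W × (List ℕ × List ℕ) =>
      decide (p.1.2.2.1.1 ≠ p.1.2.2.1.2)) :=
    (PrimrecPred.not (Primrec.eq.comp a2 a3)).decide
  unfold chk
  exact Primrec.and.comp (Primrec.and.comp n1 n2) (Primrec.and.comp (Primrec.and.comp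
    (Primrec.eq.comp e1 (Primrec.option_some.comp a2)).decide
    (Primrec.eq.comp e2 (Primrec.option_some.comp a3)).decide) n3)

theorem chk_iff (c : Code) (p : W × (List ℕ × List ℕ)) : chk c p = true ↔
    (p.1.1.1 ≠ [] ∧ p.1.1.2 ≠ []) ∧ (c.evaln p.1.2.2.2 (encode (p.2.1, p.1.2.1)) =
      some p.1.2.2.1.1 ∧ c.evaln p.1.2.2.2 (encode (p.2.2, p.1.2.1)) = some p.1.2.2.1.2) ∧
      p.1.2.2.1.1 ≠ p.1.2.2.1.2 := by
  simp only [chk, Bool.and_eq_true, decide_eq_true_eq, List.length_eq_zero_iff, ne_eq, and_assoc]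

/-- word data from a number -/
def dW (k : ℕ) : W := (decode (α := W) k).getD (([], []), (0, ((0, 0), 0)))

theorem prim_dW : Primrec dW := Primrec.option_getD.comp Primrec.decode (Primrec.const _)

theorem dW_enc (w : W) : dW (encode w) = w := by
  unfold dW
  rw [Encodable.encodek]
  rfl

/-- `T` has a splitting above `u` -/
def Spl (c : Code) (T : Tr) (u : List Bool) : Prop :=
  ∃ w : W, chk c (w, (T (u ++ w.1.1), T (u ++ w.1.2))) = true

/-! ### no splitting above a node -/

def dQ (k : ℕ) : List Bool × (ℕ × ℕ) := (decode (α := List Bool × (ℕ × ℕ)) k).getD ([], (0, 0))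

theorem prim_dQ : Primrec dQ := Primrec.option_getD.comp Primrec.decode (Primrec.const _)

theorem dQ_enc (w : List Bool × (ℕ × ℕ)) : dQ (encode w) = w := by
  unfold dQ
  rw [Encodable.encodek]
  rfl

theorem no_split {c : Code} (hc : Fn c) {T : Tr} (hT : IsT T) {u : List Bool}
    (hu : ¬ Spl c T u) {O : Set (ℕ →. ℕ)} (hO : RI O T) {y a : ℕ → ℕ}
    (hy : Path (shift T (u ++ [false])) y) (ha : Cmp c y a) : Nat.RecursiveIn O (orc a) := by
  have hT' : IsT (shift T (u ++ [false])) := by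
    refine ⟨fun s b => ?_, fun s w h1 h2 => ?_⟩
    · show T ((u ++ [false]) ++ s) <+: T ((u ++ [false]) ++ (s ++ [b]))
      rw [← List.append_assoc _ s [b]]
      exact hT.mono _ _
    · unfold shift at h1 h2
      rw [← List.append_assoc] at h1 h2
      exact hT.inc _ _ h1 h2
  have h1 : RI O (fun p : ℕ × ℕ => T ((u ++ [false]) ++ (dQ p.2).1)) :=
    hO.comp (RI.prim (Primrec.list_append.comp (Primrec.const _)
      (Primrec.fst.comp (prim_dQ.comp Primrec.snd))))
  have hP : Primrec (fun q : (ℕ × ℕ) × List ℕ =>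
      decide (c.evaln (dQ q.1.2).2.2 (encode (q.2, q.1.1)) = some (dQ q.1.2).2.1)) := by
    have hq := prim_dQ.comp (Primrec.snd.comp (Primrec.fst (α := ℕ × ℕ) (β := List ℕ)))
    apply PrimrecPred.decide
    refine Primrec.eq.comp (Code.primrec_evaln.comp (Primrec.pair (Primrec.pair
      (Primrec.snd.comp (Primrec.snd.comp hq)) (Primrec.const c))
      (Primrec.encode.comp (Primrec.pair Primrec.snd (Primrec.fst.comp Primrec.fst)))))
      (Primrec.option_some.comp (Primrec.fst.comp (Primrec.snd.comp hq)))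
  have hR : RI O (fun p : ℕ × ℕ => (fun n k : ℕ => decide (c.evaln (dQ k).2.2
      (encode (T ((u ++ [false]) ++ (dQ k).1), n)) = some (dQ k).2.1)) p.1 p.2) :=
    (RI.prim hP).comp (RI.pair (RI.prim Primrec.id) h1)
  have hex : ∀ n, ∃ k, (fun n k : ℕ => decide (c.evaln (dQ k).2.2
      (encode (T ((u ++ [false]) ++ (dQ k).1), n)) = some (dQ k).2.1)) n k = true := by
    intro n
    obtain ⟨s, hs1, hs2⟩ := ha.ex hc hT' hy n
    obtain ⟨t, ht⟩ := Code.evaln_complete.1 hs2
    refine ⟨encode ((s, (a n, t)) : List Bool × (ℕ × ℕ)), ?_⟩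
    simp only [dQ_enc, decide_eq_true_eq]
    exact ht
  obtain ⟨f, hf1, hf2⟩ := hR.sel hex
  have h6 := ((RI.prim (Primrec.fst.comp (Primrec.snd.comp prim_dQ))).comp hf1).nat
  refine h6.of_eq fun n => ?_
  have h7 := hf2 n
  simp only [decide_eq_true_eq] at h7
  show Part.some (dQ (f n)).2.1 = Part.some (a n)
  congr 1
  by_contra hne
  obtain ⟨s, hs1, hs2⟩ := ha.ex hc hT' hy n
  obtain ⟨t, ht⟩ := Code.evaln_complete.1 hs2
  apply hu
  refine ⟨((false :: (dQ (f n)).1, false :: s), (n, (((dQ (f n)).2.1, a n),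
    max (dQ (f n)).2.2 t))), ?_⟩
  rw [chk_iff]
  refine ⟨⟨by simp, by simp⟩, ⟨?_, ?_⟩, hne⟩
  · have h8 := Code.evaln_mono (le_max_left (dQ (f n)).2.2 t) (Option.mem_def.2 h7)
    simpa using h8
  · have h8 := Code.evaln_mono (le_max_right (dQ (f n)).2.2 t) ht
    simpa [shift] using h8

/-! ### splitting above all nodes -/

def pick (b : Bool) (w : W) (u : List Bool) : List Bool :=
  if b = true then u ++ w.1.2 else u ++ w.1.1

theorem prim_pick : Primrec (fun p : (Bool × W) × List Bool => pick p.1.1 p.1.2 p.2) := by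
  unfold pick
  apply Primrec.ite
  · exact Primrec.eq.comp (Primrec.fst.comp Primrec.fst) (Primrec.const true)
  · exact Primrec.list_append.comp Primrec.snd (Primrec.snd.comp (Primrec.fst.comp
      (Primrec.snd.comp Primrec.fst)))
  · exact Primrec.list_append.comp Primrec.snd (Primrec.fst.comp (Primrec.fst.comp
      (Primrec.snd.comp Primrec.fst)))

def gg (D : List Bool → W) (s : List Bool) : List Bool :=
  s.foldl (fun u b => pick b (D u) u) [false]

theorem gg_snoc (D : List Bool → W) (s : List Bool) (b : Bool) :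
    gg D (s ++ [b]) = pick b (D (gg D s)) (gg D s) := by
  unfold gg
  rw [List.foldl_append]
  rfl

def stp (D : List Bool → W) (q : List Bool × List Bool) : List Bool × List Bool :=
  (q.1.tail, pick (q.1.getD 0 false) (D q.2) q.2)

theorem stp_iter (D : List Bool → W) (s : List Bool) : ∀ u : List Bool,
    (stp D)^[s.length] (s, u) = ([], s.foldl (fun u b => pick b (D u) u) u) := by
  induction s with
  | nil =>
    intro u
    rfl
  | cons b r ih =>
    intro u
    rw [List.length_cons, Function.iterate_succ_apply]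
    show (stp D)^[r.length] (r, pick b (D u) u) = _
    rw [ih]
    rfl

theorem ri_gg {O : Set (ℕ →. ℕ)} {D : List Bool → W} (hD : RI O D) : RI O (gg D) := by
  have h1 : RI O (stp D) := by
    have h2 : Primrec (fun p : (List Bool × List Bool) × W =>
        (p.1.1.tail, pick (p.1.1.getD 0 false) p.2 p.1.2)) := by
      refine Primrec.pair (Primrec.list_tail.comp (Primrec.fst.comp Primrec.fst)) ?_
      exact prim_pick.comp (Primrec.pair (Primrec.pair ((Primrec.list_getD false).comp
        (Primrec.fst.comp Primrec.fst) (Primrec.const 0)) Primrec.snd)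
        (Primrec.snd.comp Primrec.fst))
    exact (RI.prim h2).comp (RI.pair (RI.prim Primrec.id) (hD.comp (RI.prim Primrec.snd)))
  have h3 : RI O (fun s : List Bool => ((stp D)^[s.length] (s, [false])).2) :=
    (RI.prim Primrec.snd).comp (h1.iter.comp (RI.prim (Primrec.pair (Primrec.pair Primrec.id
      (Primrec.const [false])) Primrec.list_length)))
  refine h3.eqv fun s => ?_
  rw [stp_iter]
  rfl

/-- Deciding one functional. -/
theorem cnd_decide {T : Tr} (hT : Cnd T) (c : Code) :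
    ∃ T', Cnd T' ∧ Ext T T' ∧ (Fn c → ∀ y, Path T' y → ∀ a, Cmp c y a →
      Low a ∨ ∃ z, Sg z ∧ ∀ e, Red a e → Red (nb z) e → Red y e) := by
  classical
  obtain ⟨z, hz, hzT⟩ := hT.low
  by_cases hc : Fn c
  swap
  · exact ⟨shift T [false], hT.shift (by simp), ext_shift T (by simp), fun h => absurd h hc⟩
  by_cases hs : ∃ u, ¬ Spl c T u
  · obtain ⟨u, hu⟩ := hs
    refine ⟨shift T (u ++ [false]), hT.shift (by simp), ext_shift T (by simp),
      fun _ y hy a ha => Or.inl ⟨z, hz, ?_⟩⟩
    exact no_split hc hT.isT hu hzT hy ha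
  push Not at hs
  -- the witness function
  obtain ⟨f, hf1, hf2⟩ : ∃ f : List Bool → ℕ,
      (∀ u, chk c (dW (f u), (T (u ++ (dW (f u)).1.1), T (u ++ (dW (f u)).1.2))) = true) ∧
      ∀ O : Set (ℕ →. ℕ), RI O T → RI O f := by
    have hex : ∀ u : List Bool, ∃ k, (fun (u : List Bool) (k : ℕ) =>
        chk c (dW k, (T (u ++ (dW k).1.1), T (u ++ (dW k).1.2)))) u k = true := by
      intro u
      obtain ⟨w, hw⟩ := hs u
      refine ⟨encode w, ?_⟩
      simp only [dW_enc]
      exact hw
    refine ⟨fun u => Nat.find (hex u), fun u => Nat.find_spec (hex u), fun O hO => ?_⟩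
    refine RI.find ?_ hex
    have h1 : RI O (fun p : List Bool × ℕ => T (p.1 ++ (dW p.2).1.1)) :=
      hO.comp (RI.prim (Primrec.list_append.comp Primrec.fst (Primrec.fst.comp
        (Primrec.fst.comp (prim_dW.comp Primrec.snd)))))
    have h2 : RI O (fun p : List Bool × ℕ => T (p.1 ++ (dW p.2).1.2)) :=
      hO.comp (RI.prim (Primrec.list_append.comp Primrec.fst (Primrec.snd.comp
        (Primrec.fst.comp (prim_dW.comp Primrec.snd)))))
    exact (RI.prim (prim_chk c)).comp (RI.pair (RI.prim (prim_dW.comp Primrec.snd))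
      (RI.pair h1 h2))
  obtain ⟨D, hD⟩ : ∃ D : List Bool → W, D = fun u => dW (f u) := ⟨_, rfl⟩
  have hDri : ∀ O : Set (ℕ →. ℕ), RI O T → RI O D := fun O hO => by
    rw [hD]
    exact (RI.prim prim_dW).comp (hf2 O hO)
  have hDs : ∀ u, ((D u).1.1 ≠ [] ∧ (D u).1.2 ≠ []) ∧
      ((D u).2.2.1.1 ∈ c.eval (encode (T (u ++ (D u).1.1), (D u).2.1)) ∧
      (D u).2.2.1.2 ∈ c.eval (encode (T (u ++ (D u).1.2), (D u).2.1))) ∧
      (D u).2.2.1.1 ≠ (D u).2.2.1.2 := by
    intro u
    have h1 := hf1 u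
    have h2 : D u = dW (f u) := by rw [hD]
    rw [← h2, chk_iff] at h1
    obtain ⟨h3, ⟨h4, h5⟩, h6⟩ := h1
    exact ⟨h3, ⟨Code.evaln_sound h4, Code.evaln_sound h5⟩, h6⟩
  have hpick : ∀ u b, ∃ r, r ≠ [] ∧ pick b (D u) u = u ++ r := by
    intro u b
    cases b
    · exact ⟨(D u).1.1, (hDs u).1.1, rfl⟩
    · exact ⟨(D u).1.2, (hDs u).1.2, rfl⟩
  have hglen : ∀ s, s.length + 1 ≤ (gg D s).length := by
    intro s
    induction s using List.reverseRecOn with
    | nil => simp [gg]
    | append_singleton s b ih =>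
      rw [gg_snoc]
      obtain ⟨r, hr, h1⟩ := hpick (gg D s) b
      rw [h1, List.length_append, List.length_append, List.length_singleton]
      have := List.length_pos_iff.2 hr
      omega
  have hext : Ext T (fun s => T (gg D s)) := ⟨gg D, hglen, fun _ => rfl⟩
  have hI : IsT (fun s => T (gg D s)) := by
    refine ⟨fun s b => ?_, fun s w h1 h2 => ?_⟩
    · show T (gg D s) <+: T (gg D (s ++ [b]))
      rw [gg_snoc]
      obtain ⟨r, hr, h1⟩ := hpick (gg D s) b
      rw [h1]
      exact hT.isT.mono' _ _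
    · simp only [gg_snoc] at h1 h2
      obtain ⟨-, ⟨h3, h4⟩, h5⟩ := hDs (gg D s)
      exact h5 (Part.mem_unique (hc _ _ _ _ h1 h3) (hc _ _ _ _ h2 h4))
  refine ⟨fun s => T (gg D s), hT.sub hI hext fun O hO => hO.comp (ri_gg (hDri O hO)), hext,
    fun _ y hy a ha => Or.inr ⟨z, hz, fun e hae hze => ?_⟩⟩
  have hTe : RI {orc e} T := hzT.trans hze
  have hDe := hDri _ hTe
  have hae' : RI {orc e} a := RI.of_nat hae
  obtain ⟨F, hF⟩ : ∃ F : List Bool → List Bool, F = fun u =>
      pick (decide (a (D u).2.1 = (D u).2.2.1.2)) (D u) u := ⟨_, rfl⟩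
  have hFe : RI {orc e} F := by
    rw [hF]
    have h1 : Primrec (fun p : (List Bool × W) × ℕ =>
        pick (decide (p.2 = p.1.2.2.2.1.2)) p.1.2 p.1.1) :=
      prim_pick.comp (Primrec.pair (Primrec.pair (Primrec.eq.comp Primrec.snd
        (Primrec.snd.comp (Primrec.fst.comp (Primrec.snd.comp (Primrec.snd.comp
          (Primrec.snd.comp Primrec.fst)))))).decide (Primrec.snd.comp Primrec.fst))
        (Primrec.fst.comp Primrec.fst))
    have h2 : RI {orc e} (fun u => a (D u).2.1) :=
      hae'.comp ((RI.prim (Primrec.fst.comp Primrec.snd)).comp hDe)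
    exact (RI.prim h1).comp (RI.pair (RI.pair (RI.prim Primrec.id) hDe) h2)
  have key : ∀ ℓ, ∃ s : List Bool, s.length = ℓ ∧ Pfx (T (gg D s)) y ∧ F^[ℓ] [false] = gg D s := by
    intro ℓ
    induction ℓ with
    | zero =>
      obtain ⟨s, _, hs2⟩ := hy 0
      exact ⟨[], rfl, hs2.down (hI.mono' [] s), rfl⟩
    | succ ℓ ih =>
      obtain ⟨s, hs1, hs2, hs3⟩ := ih
      obtain ⟨t, ht1, ht2⟩ := hy (ℓ + 1)
      have h1 : s <+: t := hI.uniq s t (by omega) hs2 ht2
      obtain ⟨r, rfl⟩ := h1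
      cases r with
      | nil =>
        rw [List.append_nil] at ht1
        omega
      | cons b r =>
        have h2 : Pfx (T (gg D (s ++ [b]))) y := by
          refine ht2.down ?_
          have := hI.mono' (s ++ [b]) r
          simpa using this
        refine ⟨s ++ [b], by simp [hs1], h2, ?_⟩
        rw [Function.iterate_succ_apply', hs3, gg_snoc, hF]
        show pick (decide (a (D (gg D s)).2.1 = (D (gg D s)).2.2.1.2)) (D (gg D s)) (gg D s) = _
        congr 1
        obtain ⟨-, ⟨h3, h4⟩, h5⟩ := hDs (gg D s)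
        rw [gg_snoc] at h2
        cases b
        · have h6 := ha.val h2 (n := (D (gg D s)).2.1) (m := (D (gg D s)).2.2.1.1) h3
          exact decide_eq_false (by rw [← h6]; exact h5)
        · have h6 := ha.val h2 (n := (D (gg D s)).2.1) (m := (D (gg D s)).2.2.1.2) h4
          exact decide_eq_true h6.symm
  have hfin : RI {orc e} (fun i : ℕ => (T (F^[i + 1] [false])).getD i 0) := by
    have h1 : RI {orc e} (fun i : ℕ => T (F^[i + 1] [false])) :=
      hTe.comp (hFe.iter.comp (RI.prim (Primrec.pair (Primrec.const [false]) Primrec.succ)))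
    exact (RI.prim ((Primrec.list_getD 0).comp Primrec.fst Primrec.snd)).comp
      (RI.pair h1 (RI.prim Primrec.id))
  refine hfin.nat.of_eq fun i => ?_
  show Part.some ((T (F^[i + 1] [false])).getD i 0) = Part.some (y i)
  congr 1
  obtain ⟨s, hs1, hs2, hs3⟩ := key (i + 1)
  rw [hs3]
  refine hs2.get ?_
  have h1 : s.length ≤ (T (gg D s)).length := hI.len s
  omega

end Pool.Agent.KS6_32.MD
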