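import Pool.Agent.KS6_32.MD.RI

set_option autoImplicit false

/-!
Pointed perfect trees.
-/

namespace Pool.Agent.KS6_32.MD

open Pool.Agent.Helper583.TC Pool.Agent.Helper583.TC.J3
open Encodable (encode decode)

/-- trees: maps from bit words to words -/
abbrev Tr := List Bool → List ℕ

/-- `l` is an initial segment of `y` -/
def Pfx (l : List ℕ) (y : ℕ → ℕ) : Prop := pre y l.length = l

/-- perfect tree -/
structure IsT (T : Tr) : Prop where
  mono : ∀ s b, T s <+: T (s ++ [b])
  inc : ∀ s w, T (s ++ [false]) <+: w → T (s ++ [true]) <+: w → False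

theorem pre_prefix (y : ℕ → ℕ) {m n : ℕ} (h : m ≤ n) : pre y m <+: pre y n := by
  obtain ⟨k, rfl⟩ := Nat.exists_eq_add_of_le h
  unfold Pool.Agent.Helper583.TC.pre
  rw [List.range_add, List.map_append]
  exact List.prefix_append _ _

theorem len_pre (y : ℕ → ℕ) (n : ℕ) : (pre y n).length = n := by
  simp [pre]

theorem Pfx.down {l l' : List ℕ} {y : ℕ → ℕ} (h : l <+: l') (hy : Pfx l' y) : Pfx l y := by
  unfold Pfx at *
  have h1 : pre y l.length <+: l' := by
    have := pre_prefix y h.length_le
    rwa [hy] at this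
  exact (List.prefix_of_prefix_length_le h1 h (by rw [len_pre])).eq_of_length (by rw [len_pre])

theorem Pfx.cmp {l l' : List ℕ} {y : ℕ → ℕ} (h : Pfx l y) (h' : Pfx l' y)
    (hl : l.length ≤ l'.length) : l <+: l' := by
  unfold Pfx at *
  have := pre_prefix y hl
  rwa [h, h'] at this

theorem Pfx.common {l l' : List ℕ} {y : ℕ → ℕ} (h : Pfx l y) (h' : Pfx l' y) :
    ∃ w, l <+: w ∧ l' <+: w := by
  rcases le_total l.length l'.length with hl | hl
  · exact ⟨l', h.cmp h' hl, List.prefix_rfl⟩
  · exact ⟨l, List.prefix_rfl, h'.cmp h hl⟩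

theorem Pfx.get {l : List ℕ} {y : ℕ → ℕ} (h : Pfx l y) {i : ℕ} (hi : i < l.length) :
    l.getD i 0 = y i := by
  unfold Pfx at h
  rw [← h]
  exact pre_getD hi

theorem IsT.mono' {T : Tr} (hT : IsT T) (s r : List Bool) : T s <+: T (s ++ r) := by
  induction r using List.reverseRecOn with
  | nil => simp
  | append_singleton r b ih =>
    rw [← List.append_assoc]
    exact ih.trans (hT.mono _ _)

theorem IsT.inc' {T : Tr} (hT : IsT T) {s : List Bool} {b b' : Bool} (hb : b ≠ b') {w : List ℕ}
    (h1 : T (s ++ [b]) <+: w) (h2 : T (s ++ [b']) <+: w) : False := by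
  cases b <;> cases b'
  · exact hb rfl
  · exact hT.inc s w h1 h2
  · exact hT.inc s w h2 h1
  · exact hb rfl

theorem IsT.uniq {T : Tr} (hT : IsT T) {y : ℕ → ℕ} (s : List Bool) : ∀ s' : List Bool,
    s.length ≤ s'.length → Pfx (T s) y → Pfx (T s') y → s <+: s' := by
  induction s using List.reverseRecOn with
  | nil =>
    intro s' _ _ _
    exact List.nil_prefix
  | append_singleton u b ih =>
    intro s' hl h1 h2
    rw [List.length_append, List.length_singleton] at hl
    have hu : u <+: s' := ih s' (by omega) (h1.down (hT.mono u b)) h2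
    obtain ⟨r, rfl⟩ := hu
    cases r with
    | nil =>
      rw [List.append_nil] at hl
      omega
    | cons b' r' =>
      by_cases hb : b = b'
      · subst hb
        exact ⟨r', by simp⟩
      · exfalso
        have h3 : Pfx (T (u ++ [b'])) y := h2.down (by
          have := hT.mono' (u ++ [b']) r'
          simpa using this)
        obtain ⟨w, hw1, hw2⟩ := h1.common h3
        exact hT.inc' hb hw1 hw2

theorem IsT.len {T : Tr} (hT : IsT T) (s : List Bool) : s.length ≤ (T s).length := by
  induction s using List.reverseRecOn with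
  | nil => simp
  | append_singleton u b ih =>
    have h1 := hT.mono u b
    have h2 : T u ≠ T (u ++ [b]) := by
      intro h
      have h3 : T (u ++ [b]) <+: T (u ++ [!b]) := by
        rw [← h]
        exact hT.mono u (!b)
      exact hT.inc' (b := b) (b' := !b) (by cases b <;> simp) h3 List.prefix_rfl
    have h4 := h1.length_le
    have h5 : (T u).length ≠ (T (u ++ [b])).length := fun h => h2 (h1.eq_of_length h)
    rw [List.length_append, List.length_singleton]
    omega

/-- `T'` is a subtree of `T` with longer root -/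
def Ext (T T' : Tr) : Prop :=
  ∃ g : List Bool → List Bool, (∀ s, s.length + 1 ≤ (g s).length) ∧ ∀ s, T' s = T (g s)

def Path (T : Tr) (y : ℕ → ℕ) : Prop := ∀ n, ∃ s : List Bool, n ≤ s.length ∧ Pfx (T s) y

theorem Path.ext {T T' : Tr} (h : Ext T T') {y : ℕ → ℕ} (hy : Path T' y) : Path T y := by
  obtain ⟨g, hg1, hg2⟩ := h
  intro n
  obtain ⟨s, hs1, hs2⟩ := hy n
  refine ⟨g s, ?_, ?_⟩
  · have := hg1 s
    omega
  · rw [← hg2]
    exact hs2

/-- conditions: pointed perfect trees computable from one singleton class -/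
structure Cnd (T : Tr) : Prop where
  isT : IsT T
  low : ∃ z, Sg z ∧ RI {orc (nb z)} T
  pt : ∀ y, Path T y → RI {orc y} T

theorem Cnd.sub {T T' : Tr} (hT : Cnd T) (hT' : IsT T') (he : Ext T T')
    (h : ∀ O : Set (ℕ →. ℕ), RI O T → RI O T') : Cnd T' := by
  refine ⟨hT', ?_, fun y hy => h _ (hT.pt y (hy.ext he))⟩
  obtain ⟨z, hz, h1⟩ := hT.low
  exact ⟨z, hz, h _ h1⟩

/-- the part of a tree above the node `u` -/
def shift (T : Tr) (u : List Bool) : Tr := fun s => T (u ++ s)

theorem ext_shift (T : Tr) {u : List Bool} (hu : u ≠ []) : Ext T (shift T u) := by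
  refine ⟨fun s => u ++ s, fun s => ?_, fun s => rfl⟩
  have := List.length_pos_iff.2 hu
  rw [List.length_append]
  omega

theorem Cnd.shift {T : Tr} (hT : Cnd T) {u : List Bool} (hu : u ≠ []) : Cnd (shift T u) := by
  refine hT.sub ⟨fun s b => ?_, fun s w h1 h2 => ?_⟩ (ext_shift T hu) fun O h => ?_
  · show T (u ++ s) <+: T (u ++ (s ++ [b]))
    rw [← List.append_assoc]
    exact hT.isT.mono _ _
  · unfold MD.shift at h1 h2
    rw [← List.append_assoc] at h1 h2
    exact hT.isT.inc _ _ h1 h2
  · exact h.comp (RI.prim (Primrec.list_append.comp (Primrec.const u) Primrec.id))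

/-! ### coding a sequence into the paths -/

def mix (z : ℕ → Bool) (s : List Bool) : List Bool :=
  (List.range (2 * s.length + 1)).map fun j => if j % 2 = 0 then z (j / 2) else s.getD (j / 2) false

theorem len_mix (z : ℕ → Bool) (s : List Bool) : (mix z s).length = 2 * s.length + 1 := by
  simp [mix]

theorem mix_snoc (z : ℕ → Bool) (s : List Bool) (b : Bool) :
    mix z (s ++ [b]) = (mix z s ++ [b]) ++ [z (s.length + 1)] := by
  unfold mix
  rw [List.length_append, List.length_singleton,
    show 2 * (s.length + 1) + 1 = (2 * s.length + 1) + 1 + 1 by ring, List.range_succ,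
    List.range_succ, List.map_append, List.map_append]
  congr 1
  · congr 1
    · apply List.map_congr_left
      intro j hj
      rw [List.mem_range] at hj
      by_cases h : j % 2 = 0
      · rw [if_pos h, if_pos h]
      · rw [if_neg h, if_neg h, List.getD_append _ _ _ _ (by omega)]
    · simp only [List.map_cons, List.map_nil]
      rw [if_neg (by omega), List.getD_append_right _ _ _ _ (by omega)]
      rw [show (2 * s.length + 1) / 2 - s.length = 0 by omega]
      rfl
  · simp only [List.map_cons, List.map_nil]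
    rw [if_pos (by omega)]
    congr 2
    omega

theorem mix_get (z : ℕ → Bool) (s : List Bool) (i : ℕ) (h : i ≤ s.length) :
    (mix z s).getD (2 * i) false = z i := by
  unfold mix
  rw [List.getD_eq_getElem _ _ (by simp; omega)]
  simp only [List.getElem_map, List.getElem_range]
  rw [if_pos (by omega)]
  congr 1
  omega

def mixP (p : List Bool × List ℕ) : List Bool :=
  (List.range (2 * p.1.length + 1)).map fun j =>
    if j % 2 = 0 then decide (p.2.getD (j / 2) 0 = 1) else p.1.getD (j / 2) false

theorem mix_eq (z : ℕ → Bool) (s : List Bool) :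
    mix z s = mixP (s, pre (nb z) (s.length + 1)) := by
  unfold mix mixP
  apply List.map_congr_left
  intro j hj
  rw [List.mem_range] at hj
  by_cases h : j % 2 = 0
  · rw [if_pos h, if_pos h]
    rw [pre_getD (by omega)]
    unfold nb
    cases z (j / 2) <;> rfl
  · rw [if_neg h, if_neg h]

theorem prim_mixP : Primrec mixP := by
  unfold mixP
  refine Primrec.list_map (Primrec.list_range.comp (Primrec.succ.comp (Primrec.nat_mul.comp
    (Primrec.const 2) (Primrec.list_length.comp Primrec.fst)))) ?_
  have h2 : Primrec (fun q : (List Bool × List ℕ) × ℕ => q.2 / 2) :=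
    Primrec.nat_div.comp Primrec.snd (Primrec.const 2)
  apply Primrec.ite
  · exact Primrec.eq.comp (Primrec.nat_mod.comp Primrec.snd (Primrec.const 2)) (Primrec.const 0)
  · exact (Primrec.eq.comp ((Primrec.list_getD 0).comp (Primrec.snd.comp Primrec.fst) h2)
      (Primrec.const 1)).decide
  · exact (Primrec.list_getD false).comp (Primrec.fst.comp Primrec.fst) h2

theorem ri_mix {O : Set (ℕ →. ℕ)} {z : ℕ → Bool} (hz : Nat.RecursiveIn O (orc (nb z))) :
    RI O (mix z) := by
  refine (RI.comp (RI.prim prim_mixP) (RI.pair (RI.prim Primrec.id) (RI.comp (RI.pre hz)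
    (RI.prim (Primrec.succ.comp Primrec.list_length))))).eqv fun s => (mix_eq z s).symm

theorem ri_self (y : ℕ → ℕ) : Nat.RecursiveIn {orc y} (orc y) := Nat.RecursiveIn.oracle _ rfl

theorem ext_mix (T : Tr) (z : ℕ → Bool) : Ext T (fun s => T (mix z s)) :=
  ⟨mix z, fun s => by rw [len_mix]; omega, fun _ => rfl⟩

theorem dw_enc (s : List Bool) : dw (encode s) = s := by
  unfold dw
  rw [Encodable.encodek]
  rfl

theorem red_of_mix {T : Tr} (hT : IsT T) (z : ℕ → Bool) (y : ℕ → ℕ)
    (hy : Path (fun s => T (mix z s)) y) (hTy : RI {orc y} T) : Red (nb z) y := by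
  have h0 : Primrec (fun p : ℕ × ℕ => dw p.2) := primrec_dw.comp Primrec.snd
  have h1 : RI {orc y} (fun p : ℕ × ℕ => T (dw p.2)) := hTy.comp (RI.prim h0)
  have h2 : RI {orc y} (fun p : ℕ × ℕ => pre y (T (dw p.2)).length) :=
    (RI.pre (ri_self y)).comp ((RI.prim Primrec.list_length).comp h1)
  have hP : Primrec (fun q : (ℕ × ℕ) × (List ℕ × List ℕ) =>
      decide (2 * q.1.1 < (dw q.1.2).length) && decide (q.2.2 = q.2.1)) := by
    apply Primrec.and.comp
    · exact (Primrec.nat_lt.comp (Primrec.nat_mul.comp (Primrec.const 2)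
        (Primrec.fst.comp Primrec.fst)) (Primrec.list_length.comp
          (primrec_dw.comp (Primrec.snd.comp Primrec.fst)))).decide
    · exact (Primrec.eq.comp (Primrec.snd.comp Primrec.snd)
        (Primrec.fst.comp Primrec.snd)).decide
  have hR : RI {orc y} (fun p : ℕ × ℕ => (fun i k : ℕ =>
      decide (2 * i < (dw k).length) && decide (pre y (T (dw k)).length = T (dw k))) p.1 p.2) :=
    (RI.prim hP).comp (RI.pair (RI.prim Primrec.id) (RI.pair h1 h2))
  have hex : ∀ i, ∃ k, (fun i k : ℕ =>
      decide (2 * i < (dw k).length) && decide (pre y (T (dw k)).length = T (dw k))) i k = true := by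
    intro i
    obtain ⟨t, ht1, ht2⟩ := hy i
    refine ⟨encode (mix z t), ?_⟩
    simp only [dw_enc, Bool.and_eq_true, decide_eq_true_eq, len_mix]
    exact ⟨by omega, ht2⟩
  obtain ⟨f, hf1, hf2⟩ := hR.sel hex
  have h4 : Primrec (fun q : ℕ × ℕ => ((dw q.2).getD (2 * q.1) false).toNat) := by
    have h5 : Primrec (fun q : ℕ × ℕ => (dw q.2).getD (2 * q.1) false) :=
      (Primrec.list_getD false).comp (primrec_dw.comp Primrec.snd)
        (Primrec.nat_mul.comp (Primrec.const 2) Primrec.fst)
    exact (Primrec.dom_bool Bool.toNat).comp h5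
  have h6 := ((RI.prim h4).comp (RI.pair (RI.prim Primrec.id) hf1)).nat
  refine h6.of_eq ?_
  intro i
  have hs := hf2 i
  simp only [Bool.and_eq_true, decide_eq_true_eq] at hs
  show Part.some (((dw (f i)).getD (2 * i) false).toNat) = Part.some (nb z i)
  congr 1
  obtain ⟨t, ht1, ht2⟩ := hy ((dw (f i)).length)
  have h7 : dw (f i) <+: mix z t := hT.uniq _ _ (by rw [len_mix]; omega) hs.2 ht2
  unfold nb
  congr 1
  obtain ⟨r, hr⟩ := h7
  have h8 := mix_get z t i (by omega)
  rw [← hr, List.getD_append _ _ _ _ hs.1] at h8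
  exact h8

/-- Coding a singleton class into all paths. -/
theorem cnd_code {T : Tr} (hT : Cnd T) {z : ℕ → Bool} (hz : Sg z) :
    ∃ T', Cnd T' ∧ Ext T T' ∧ ∀ y, Path T' y → Red (nb z) y := by
  have hr : ∀ y, Path (fun s => T (mix z s)) y → Red (nb z) y := fun y hy =>
    red_of_mix hT.isT z y hy (hT.pt y (hy.ext (ext_mix T z)))
  refine ⟨fun s => T (mix z s), ⟨⟨fun s b => ?_, fun s w h1 h2 => ?_⟩, ?_, fun y hy => ?_⟩,
    ext_mix T z, hr⟩
  · show T (mix z s) <+: T (mix z (s ++ [b]))
    rw [mix_snoc]
    exact (hT.isT.mono _ _).trans (hT.isT.mono _ _)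
  · simp only [mix_snoc] at h1 h2
    exact hT.isT.inc _ _ ((hT.isT.mono _ _).trans h1) ((hT.isT.mono _ _).trans h2)
  · obtain ⟨z0, hz0, h0⟩ := hT.low
    refine ⟨jnb z0 z, sg_jnb hz0 hz, ?_⟩
    have e1 : Red (nb z0) (nb (jnb z0 z)) := by
      have := red_evn (jnb z0 z)
      rwa [evn_jnb] at this
    have e2 : Red (nb z) (nb (jnb z0 z)) := by
      have := red_odn (jnb z0 z)
      rwa [odn_jnb] at this
    exact (h0.trans e1).comp (ri_mix e2)
  · exact (hT.pt y (hy.ext (ext_mix T z))).comp (ri_mix (hr y hy))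

end Pool.Agent.KS6_32.MD
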